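import Mathlib

open Complex MeasureTheory Filter Topology Asymptotics Set ZMod
open scoped Real

namespace L5helper79.TW

variable {D : ℕ} [NeZero D]

/-- sum over units of a primitive character against an additive character -/
lemma sum_units (ψ : DirichletCharacter ℂ D) (hψ : ψ.IsPrimitive) (h2 : ψ ^ 2 = 1) (a : ZMod D) :
    ∑ u : (ZMod D)ˣ, ψ (u : ZMod D) * stdAddChar (a * (u : ZMod D)) = ψ a * gaussSum ψ stdAddChar := by
  have hinv : ψ⁻¹ = ψ := by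
    rw [inv_eq_iff_mul_eq_one, ← sq, h2]
  have h := gaussSum_mulShift_of_isPrimitive (stdAddChar (N := D)) hψ a
  rw [hinv] at h
  rw [← h, gaussSum]
  refine Fintype.sum_of_injective (fun u : (ZMod D)ˣ => (u : ZMod D)) Units.val_injective _ _
    (fun i hi => ?_) (fun i => ?_)
  · rw [ψ.map_nonunit, zero_mul]
    intro hu
    exact hi ⟨hu.unit, rfl⟩
  · simp [AddChar.mulShift_apply]

lemma gauss_ne_zero (ψ : DirichletCharacter ℂ D) (hψ : ψ.IsPrimitive) :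
    gaussSum ψ (stdAddChar (N := D)) ≠ 0 := by
  intro h
  have h1 : ZMod.dft (fun x => ψ x) = 0 := by
    funext k
    have := hψ.fourierTransform_eq_inv_mul_gaussSum k
    rw [h, mul_zero] at this
    exact this
  have h2 : (fun x => ψ x) = (0 : ZMod D → ℂ) := by
    exact (LinearEquiv.map_eq_zero_iff _).mp h1
  have h3 := congrFun h2 1
  simp at h3

/-- the theta function -/
noncomputable def Th (ψ : DirichletCharacter ℂ D) (R : ℝ) (g : ℂ → ℂ) (t : ℝ) : ℂ :=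
  ∑ u : (ZMod D)ˣ, ψ u * g (((u : ZMod D).val : ℂ) / D + I * (t / (D * R) : ℝ))

/-- hypotheses on the function -/
structure Good (m : ℕ) (c : ℕ → ℂ) (g : ℂ → ℂ) : Prop where
  ser : ∀ z : ℂ, 0 < z.im → HasSum (fun n : ℕ => c n * cexp (2 * π * I * n * z)) (g z)
  c0 : c 0 = 0
  bd : c =O[atTop] fun n : ℕ => (n : ℝ) ^ (m : ℝ)
  cont : ContinuousOn g {z | 0 < z.im}
  dec : ∃ C a A : ℝ, 0 < a ∧ ∀ z : ℂ, A ≤ z.im → 0 < z.im → ‖g z‖ ≤ C * Real.exp (-a * z.im)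

/-- functional relation: `Rt ^ 2 = N₀` -/
def Rel (D : ℕ) (m : ℕ) (N₀ : ℕ) (e : ℂ) (g : ℂ → ℂ) : Prop :=
  ∀ u v : ℤ, (D : ℤ) ∣ u * v * N₀ + 1 → ∀ t : ℝ, 0 < t →
    g ((u : ℂ) / D + I * (1 / t / (D * √N₀) : ℝ)) =
      e * (I * t) ^ (2 * m) * g ((v : ℂ) / D + I * (t / (D * √N₀) : ℝ))

section

variable {m : ℕ} {c : ℕ → ℂ} {g : ℂ → ℂ} {N₀ : ℕ} {e : ℂ}
  (ψ : DirichletCharacter ℂ D)

lemma arg_im (x : ℂ) (hx : x.im = 0) (y : ℝ) : (x + I * (y : ℂ)).im = y := by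
  simp [hx]

lemma Th_cont (hg : Good m c g) {R : ℝ} (hR : 0 < R) : ContinuousOn (Th ψ R g) (Ioi 0) := by
  unfold Th
  refine continuousOn_finsetSum _ (fun u _ => ?_)
  refine continuousOn_const.mul ?_
  refine hg.cont.comp (by fun_prop) ?_
  intro t ht
  have ht : 0 < t := ht
  have hD : (0 : ℝ) < D := by exact_mod_cast Nat.pos_of_ne_zero (NeZero.ne D)
  show 0 < (_ : ℂ).im
  rw [arg_im]
  · positivity
  · have : (((u : ZMod D).val : ℂ) / D) = ((((u : ZMod D).val : ℝ) / D : ℝ) : ℂ) := by push_cast; rfl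
    rw [this, Complex.ofReal_im]

omit [NeZero D] in
lemma val_im (u : (ZMod D)) : (((u : ZMod D).val : ℂ) / D).im = 0 := by
  have : (((u : ZMod D).val : ℂ) / D) = ((((u : ZMod D).val : ℝ) / D : ℝ) : ℂ) := by push_cast; rfl
  rw [this, Complex.ofReal_im]

lemma Th_decay (hg : Good m c g) {R : ℝ} (hR : 0 < R) (r : ℝ) :
    Th ψ R g =O[atTop] fun t : ℝ => t ^ r := by
  have hD : (0 : ℝ) < D := by exact_mod_cast Nat.pos_of_ne_zero (NeZero.ne D)
  obtain ⟨C, a, A, ha, hC⟩ := hg.dec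
  have hTh : Th ψ R g = fun t : ℝ => ∑ u : (ZMod D)ˣ, ψ u * g (((u : ZMod D).val : ℂ) / D + I * (t / (D * R) : ℝ)) := rfl
  rw [hTh]
  refine IsBigO.fun_sum (s := Finset.univ) (A := fun (u : (ZMod D)ˣ) (t : ℝ) =>
    ψ u * g (((u : ZMod D).val : ℂ) / D + I * (t / (D * R) : ℝ))) (fun u _ => ?_)
  refine IsBigO.const_mul_left ?_ _
  have h1 : (fun t : ℝ => g (((u : ZMod D).val : ℂ) / D + I * (t / (D * R) : ℝ))) =O[atTop]
      fun t : ℝ => Real.exp (-(a / (D * R)) * t) := by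
    refine IsBigO.of_bound |C| ?_
    filter_upwards [eventually_ge_atTop (A * (D * R)), eventually_gt_atTop 0] with t ht ht0
    have h1 : A ≤ t / (D * R) := by
      rw [le_div_iff₀ (by positivity)]; linarith
    have h2 := hC (((u : ZMod D).val : ℂ) / D + I * (t / (D * R) : ℝ))
      (by rw [arg_im _ (val_im _)]; exact h1) (by rw [arg_im _ (val_im _)]; positivity)
    rw [arg_im _ (val_im _)] at h2
    refine h2.trans ?_
    rw [Real.norm_eq_abs, abs_of_pos (Real.exp_pos _)]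
    have h3 : -a * (t / (D * R)) = -(a / (D * R)) * t := by ring
    rw [h3]
    gcongr
    exact le_abs_self C
  exact h1.trans (isLittleO_exp_neg_mul_rpow_atTop (by positivity) r).isBigO

/-- the functional equation of the theta function -/
lemma Th_feq (h2 : ψ ^ 2 = 1) (hN : 0 < N₀) (hco : Nat.Coprime N₀ D) (hrel : Rel D m N₀ e g)
    (t : ℝ) (ht : 0 < t) :
    Th ψ (√N₀) g (1 / t) = (e * (-1) ^ m * ψ (-(N₀ : ZMod D))) * (t : ℂ) ^ (2 * m) * Th ψ (√N₀) g t := by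
  have hunit : IsUnit (N₀ : ZMod D) := (ZMod.isUnit_iff_coprime _ _).mpr hco
  obtain ⟨w, hw⟩ := hunit
  -- involution
  let σ : (ZMod D)ˣ ≃ (ZMod D)ˣ := (Equiv.inv (ZMod D)ˣ).trans (Equiv.mulLeft (-w⁻¹))
  have hσ : ∀ v, σ v = -w⁻¹ * v⁻¹ := fun v => rfl
  have hreal : ∀ x : (ZMod D)ˣ, ψ (x : ZMod D) * ψ (x : ZMod D) = 1 := by
    intro x
    have := congrArg (fun χ : DirichletCharacter ℂ D => χ (x : ZMod D)) h2
    simp only [MulChar.pow_apply_coe, MulChar.one_apply_coe] at this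
    rw [← sq]; exact this
  unfold Th
  rw [← Equiv.sum_comp σ]
  rw [Finset.mul_sum]
  refine Finset.sum_congr rfl (fun v _ => ?_)
  rw [hσ]
  -- divisibility
  have hdvd : (D : ℤ) ∣ ((((-w⁻¹ * v⁻¹ : (ZMod D)ˣ) : ZMod D).val : ℕ) : ℤ) *
      (((v : ZMod D).val : ℕ) : ℤ) * N₀ + 1 := by
    rw [← ZMod.intCast_zmod_eq_zero_iff_dvd]
    push_cast
    rw [ZMod.natCast_zmod_val, ZMod.natCast_zmod_val, ← hw]
    have h3 : (-w⁻¹ * v⁻¹ * v * w : (ZMod D)ˣ) = -1 := by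
      rw [inv_mul_cancel_right, neg_mul, inv_mul_cancel]
    have h4 := congrArg (fun x : (ZMod D)ˣ => (x : ZMod D)) h3
    simp only [Units.val_mul, Units.val_neg, Units.val_one] at h4
    rw [h4]
    ring
  have h5 := hrel _ _ hdvd t ht
  have h5' : g (((((-w⁻¹ * v⁻¹ : (ZMod D)ˣ) : ZMod D).val : ℕ) : ℂ) / D + I * (1 / t / (D * √N₀) : ℝ)) =
      e * (I * t) ^ (2 * m) * g ((((v : ZMod D).val : ℕ) : ℂ) / D + I * (t / (D * √N₀) : ℝ)) := by
    simpa using h5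
  rw [h5']
  have hI : (I * (t : ℂ)) ^ (2 * m) = (-1) ^ m * (t : ℂ) ^ (2 * m) := by
    rw [mul_pow, pow_mul I, I_sq]
  rw [hI]
  -- character value
  have hchar : ψ ((-w⁻¹ * v⁻¹ : (ZMod D)ˣ) : ZMod D) = ψ (-(N₀ : ZMod D)) * ψ (v : ZMod D) := by
    have e1 : ψ ((-w⁻¹ * v⁻¹ : (ZMod D)ˣ) : ZMod D) * ψ (((-w) * v : (ZMod D)ˣ) : ZMod D) = 1 := by
      rw [← map_mul, ← Units.val_mul]
      have : (-w⁻¹ * v⁻¹ * (-w * v) : (ZMod D)ˣ) = 1 := by
        have : (-w⁻¹ * v⁻¹ * (-w * v) : (ZMod D)ˣ) = (w⁻¹ * w) * (v⁻¹ * v) := by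
          rw [mul_mul_mul_comm]; simp
        rw [this]; simp
      rw [this]; simp
    have e2 : ψ (((-w) * v : (ZMod D)ˣ) : ZMod D) * ψ (((-w) * v : (ZMod D)ˣ) : ZMod D) = 1 := hreal _
    have e3 : ψ (((-w) * v : (ZMod D)ˣ) : ZMod D) = ψ (-(N₀ : ZMod D)) * ψ (v : ZMod D) := by
      rw [Units.val_mul, map_mul, Units.val_neg, hw]
    have hne : ψ (((-w) * v : (ZMod D)ˣ) : ZMod D) ≠ 0 := by
      intro h0; rw [h0, mul_zero] at e2; exact zero_ne_one e2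
    rw [← e3]
    exact mul_right_cancel₀ hne (e1.trans e2.symm)
  rw [hchar]
  ring

lemma Th_series (hg : Good m c g) (hψ : ψ.IsPrimitive) (h2 : ψ ^ 2 = 1) {R : ℝ} (hR : 0 < R)
    (t : ℝ) (ht : 0 < t) :
    HasSum (fun n : ℕ => (gaussSum ψ (stdAddChar (N := D)) * (ψ n * c n)) *
      Real.exp (-π * (2 * n / (D * R)) * t)) (Th ψ R g t) := by
  have hD : (0 : ℝ) < D := by exact_mod_cast Nat.pos_of_ne_zero (NeZero.ne D)
  have h1 : ∀ u : (ZMod D)ˣ, HasSum (fun n : ℕ => ψ u * (c n * cexp (2 * π * I * n *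
      ((((u : ZMod D).val : ℂ) / D + I * (t / (D * R) : ℝ))))))
      (ψ u * g (((u : ZMod D).val : ℂ) / D + I * (t / (D * R) : ℝ))) := by
    intro u
    refine (hg.ser _ ?_).mul_left _
    rw [arg_im _ (val_im _)]
    positivity
  have h3 := hasSum_sum (fun (u : (ZMod D)ˣ) (_ : u ∈ Finset.univ) => h1 u)
  unfold Th
  convert h3 using 1
  funext n
  have h4 := sum_units ψ hψ h2 (n : ZMod D)
  have h5 : ∀ u : (ZMod D)ˣ, cexp (2 * π * I * n *
      ((((u : ZMod D).val : ℂ) / D + I * (t / (D * R) : ℝ)))) =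
      stdAddChar ((n : ZMod D) * (u : ZMod D)) * (Real.exp (-π * (2 * n / (D * R)) * t) : ℝ) := by
    intro u
    have h6 : (n : ZMod D) * (u : ZMod D) = (((n : ℤ) * ((u : ZMod D).val : ℤ) : ℤ) : ZMod D) := by
      push_cast
      rw [ZMod.natCast_zmod_val]
    rw [h6, ZMod.stdAddChar_coe, Complex.ofReal_exp, ← Complex.exp_add]
    congr 1
    push_cast
    have hDc : (D : ℂ) ≠ 0 := by exact_mod_cast NeZero.ne D
    have hRc : (R : ℂ) ≠ 0 := by exact_mod_cast hR.ne'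
    field_simp
    ring_nf
    rw [I_sq]
    ring
  calc _ = (∑ u : (ZMod D)ˣ, ψ (u : ZMod D) * stdAddChar ((n : ZMod D) * (u : ZMod D))) * c n *
        (Real.exp (-π * (2 * n / (D * R)) * t) : ℝ) := by rw [h4]; ring
    _ = _ := by
      rw [Finset.sum_mul, Finset.sum_mul]
      refine Finset.sum_congr rfl (fun u _ => ?_)
      rw [h5 u]; ring

end

end L5helper79.TW
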