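import Mathlib

open UpperHalfPlane

namespace L5helper79.TW

/-- `f` (weight `2m`, level `N`) is an eigenform of all Atkin–Lehner operators: for every divisor
`Q` of `N` there is a sign `e` with `f |_{2m} W = e f` (slash action normalised by
`det^m`) for every integral matrix `W = (Qx, y; Nz, Qw)` of determinant `Q`; here
`τ' = W τ`.  (Such `W` exist exactly when `gcd(Q, N/Q) = 1`; for `Q = 1` they form `Γ₀(N)`.) -/
def IsAtkinLehnerEigen (N m : ℕ) (f : ℍ → ℂ) : Prop :=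
  ∀ Q : ℕ, Q ∣ N → ∃ e : ℂ, (e = 1 ∨ e = -1) ∧
    ∀ x y z w : ℤ, (Q : ℤ) * x * w - (N / Q : ℕ) * y * z = 1 → ∀ τ τ' : ℍ,
      (τ' : ℂ) * (N * z * τ + Q * w) = Q * x * τ + y →
      (Q : ℂ) ^ m * f τ' = e * ((N : ℂ) * z * τ + Q * w) ^ (2 * m) * f τ

/-- `L` is the `L`-function `L(f ⊗ ψ, s)` in the analytic normalisation (centre `1/2`): an entire
function with `L s = ∑ ψ(n) λ(n) n^{-s}` for `Re s > 3/2`, where `λ(n) = c(n) / n^{(2m-1)/2}` and
`c(n)` are the Fourier coefficients of `f` (of weight `2m`). -/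
structure IsTwistedL (m : ℕ) (f : ℍ → ℂ) {D : ℕ} (ψ : DirichletCharacter ℂ D) (L : ℂ → ℂ) :
    Prop where
  entire : Differentiable ℂ L
  series : ∀ s : ℂ, 3 / 2 < s.re → HasSum (fun n : ℕ =>
    ψ n * ((qExpansion 1 f).coeff n / (n : ℂ) ^ ((2 * m - 1 : ℂ) / 2)) / (n : ℂ) ^ s) (L s)

/-- `ψ` is a primitive real Dirichlet character -/
def IsRealPrimitive {D : ℕ} (ψ : DirichletCharacter ℂ D) : Prop := ψ.IsPrimitive ∧ ψ ^ 2 = 1

end L5helper79.TW
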