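import Pool.Agent.L5helper79.TW.ModF

open Complex Filter Topology Set
open UpperHalfPlane hiding I
open scoped Real MatrixGroups
open CongruenceSubgroup DirichletCharacter

namespace L5helper79.TW

lemma IsTwistedL.unique {m : ℕ} {f : ℍ → ℂ} {D : ℕ} {ψ : DirichletCharacter ℂ D} {L₁ L₂ : ℂ → ℂ}
    (h1 : IsTwistedL m f ψ L₁) (h2 : IsTwistedL m f ψ L₂) : L₁ = L₂ := by
  have a1 : AnalyticOnNhd ℂ L₁ univ := h1.entire.differentiableOn.analyticOnNhd isOpen_univ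
  have a2 : AnalyticOnNhd ℂ L₂ univ := h2.entire.differentiableOn.analyticOnNhd isOpen_univ
  refine a1.eq_of_eventuallyEq a2 (z₀ := 2) ?_
  have hopen : IsOpen {s : ℂ | 3 / 2 < s.re} := isOpen_lt continuous_const Complex.continuous_re
  filter_upwards [hopen.mem_nhds (show (3 / 2 : ℝ) < (2 : ℂ).re by norm_num)] with s hs
  exact (h1.series s hs).unique (h2.series s hs)

section chars

variable {d D : ℕ} [NeZero d] [NeZero D] (χ : DirichletCharacter ℂ d) (ψ : DirichletCharacter ℂ D)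

instance instNeLcm : NeZero (Nat.lcm d D) := ⟨Nat.lcm_ne_zero (NeZero.ne d) (NeZero.ne D)⟩

instance instNeCond : NeZero (mul χ ψ).conductor := ⟨conductor_ne_zero _⟩

lemma changeLevel_sq {n k : ℕ} (h : n ∣ k) (ρ : DirichletCharacter ℂ n) (hρ : ρ ^ 2 = 1) :
    (changeLevel h ρ) ^ 2 = 1 := by
  rw [← map_pow, hρ, map_one]

lemma mul_sq (hχ : χ ^ 2 = 1) (hψ : ψ ^ 2 = 1) : (mul χ ψ) ^ 2 = 1 := by
  rw [mul, mul_pow, changeLevel_sq _ _ hχ, changeLevel_sq _ _ hψ, one_mul]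

lemma primitive_mul_sq (hχ : χ ^ 2 = 1) (hψ : ψ ^ 2 = 1) : (primitive_mul χ ψ) ^ 2 = 1 := by
  apply changeLevel_injective (mul χ ψ).conductor_dvd_level
  rw [map_pow, map_one]
  have : changeLevel (mul χ ψ).conductor_dvd_level (primitive_mul χ ψ) = mul χ ψ :=
    changeLevel_primitiveCharacter _
  rw [this, mul_sq χ ψ hχ hψ]

lemma cond_dvd : (mul χ ψ).conductor ∣ d * D :=
  (conductor_dvd_level _).trans (Nat.lcm_dvd_mul d D)

lemma dvd_cond (hχ : χ ^ 2 = 1) (hψ : ψ.IsPrimitive) : D ∣ d * (mul χ ψ).conductor := by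
  have h1 : changeLevel (Nat.dvd_lcm_right d D) ψ =
      changeLevel (Nat.dvd_lcm_left d D) χ * mul χ ψ := by
    rw [mul, ← mul_assoc, ← sq, changeLevel_sq _ _ hχ, one_mul]
  have h2 : (changeLevel (Nat.dvd_lcm_right d D) ψ).conductor = D := by
    rw [conductor_changeLevel]; exact hψ
  have h3 : (changeLevel (Nat.dvd_lcm_right d D) ψ).conductor ∣
      (changeLevel (Nat.dvd_lcm_left d D) χ).conductor.lcm (mul χ ψ).conductor := by
    rw [h1]; exact conductor_mul_dvd_lcm_conductor _ _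
  rw [h2, conductor_changeLevel] at h3
  exact h3.trans ((Nat.lcm_dvd_mul _ _).trans (Nat.mul_dvd_mul χ.conductor_dvd_level dvd_rfl))

lemma gcd_eq (hχ : χ ^ 2 = 1) (hψ : ψ.IsPrimitive) {N : ℕ} (hN : Nat.Coprime N d) :
    Nat.gcd N (mul χ ψ).conductor = Nat.gcd N D := by
  apply Nat.dvd_antisymm
  · refine Nat.dvd_gcd (Nat.gcd_dvd_left _ _) ?_
    have h1 : Nat.gcd N (mul χ ψ).conductor ∣ d * D := (Nat.gcd_dvd_right _ _).trans (cond_dvd χ ψ)
    exact (Nat.Coprime.coprime_dvd_left (Nat.gcd_dvd_left _ _) hN).dvd_of_dvd_mul_left h1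
  · refine Nat.dvd_gcd (Nat.gcd_dvd_left _ _) ?_
    have h1 : Nat.gcd N D ∣ d * (mul χ ψ).conductor := (Nat.gcd_dvd_right _ _).trans (dvd_cond χ ψ hχ hψ)
    exact (Nat.Coprime.coprime_dvd_left (Nat.gcd_dvd_left _ _) hN).dvd_of_dvd_mul_left h1

lemma primitive_mul_apply {a : ℤ} (had : IsCoprime a d) (haD : IsCoprime a D) :
    primitive_mul χ ψ (a : ZMod _) = χ a * ψ a := by
  have hl : IsCoprime a (Nat.lcm d D : ℕ) := by
    have h1 : IsCoprime a ((d : ℤ) * D) := had.mul_right haD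
    exact h1.of_isCoprime_of_dvd_right (by exact_mod_cast Nat.lcm_dvd_mul d D)
  have h2 := primitiveCharacter_apply_of_isCoprime (mul χ ψ) hl
  rw [mul_def, h2, mul, MulChar.mul_apply, changeLevel_eq_cast_of_dvd' _ _ hl,
    changeLevel_eq_cast_of_dvd' _ _ hl]

omit [NeZero d] in
lemma chi_one {n : ℕ} (hn : n ≠ 0) (h : ∀ p : ℕ, p.Prime → p ∣ n → χ (p : ZMod d) = 1) :
    χ (n : ZMod d) = 1 := by
  induction n using Nat.recOnMul with
  | zero => exact absurd rfl hn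
  | one => simp
  | prime p hp => exact h p hp dvd_rfl
  | mul a b ha hb =>
    have ha0 : a ≠ 0 := fun h0 => hn (by rw [h0, zero_mul])
    have hb0 : b ≠ 0 := fun h0 => hn (by rw [h0, mul_zero])
    rw [Nat.cast_mul, map_mul, ha ha0 (fun p hp hpa => h p hp (hpa.mul_right b)),
      hb hb0 (fun p hp hpb => h p hp (hpb.mul_left a)), one_mul]

lemma coprime_of_chi {N : ℕ} (h : ∀ p : ℕ, p.Prime → p ∣ N → χ (p : ZMod d) = 1) :
    Nat.Coprime N d := by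
  rw [Nat.coprime_iff_gcd_eq_one]
  by_contra hne
  obtain ⟨p, hp, hpd⟩ := Nat.exists_prime_and_dvd hne
  have h1 := h p hp (hpd.trans (Nat.gcd_dvd_left _ _))
  have h2 : ¬ IsUnit ((p : ℕ) : ZMod d) := by
    rw [ZMod.isUnit_iff_coprime]
    intro hc
    have := Nat.eq_one_of_dvd_coprimes hc dvd_rfl (hpd.trans (Nat.gcd_dvd_right _ _))
    exact hp.one_lt.ne' this
  rw [χ.map_nonunit h2] at h1
  exact zero_ne_one h1

end chars

section main

variable {N m : ℕ} (hN : Squarefree N) (hm : 0 < m)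

/-- the root number -/
noncomputable def sgn (N m : ℕ) (e : ℕ → ℂ) {D : ℕ} (ψ : DirichletCharacter ℂ D) : ℂ :=
  e (N / Nat.gcd N D) * (-1) ^ m * ψ (-((N / Nat.gcd N D : ℕ) : ZMod D))

/-- choice of signs -/
def Signs (N m : ℕ) (f : ℍ → ℂ) (e : ℕ → ℂ) : Prop :=
  ∀ Q : ℕ, Q ∣ N → ((e Q = 1 ∨ e Q = -1) ∧
    ∀ x y z w : ℤ, (Q : ℤ) * x * w - (N / Q : ℕ) * y * z = 1 → ∀ τ τ' : ℍ,
      (τ' : ℂ) * (N * z * τ + Q * w) = Q * x * τ + y →
      (Q : ℂ) ^ m * f τ' = e Q * ((N : ℂ) * z * τ + Q * w) ^ (2 * m) * f τ)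

lemma exists_signs {f : ℍ → ℂ} (h : IsAtkinLehnerEigen N m f) : ∃ e : ℕ → ℂ, Signs N m f e := by
  classical
  choose! e he using h
  exact ⟨e, fun Q hQ => he Q hQ⟩

include hN hm in
theorem exists_twisted {Γ : Subgroup (GL (Fin 2) ℝ)} [Γ.IsArithmetic]
    {F : Type*} [FunLike F ℍ ℂ] [CuspFormClass F Γ (2 * (m : ℤ))] (f : F)
    (hw : Γ.strictWidthInfty = 1) {e : ℕ → ℂ} (he : Signs N m f e) {D : ℕ} [NeZero D]
    (ψ : DirichletCharacter ℂ D) (hψ : IsRealPrimitive ψ) :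
    ∃ L, IsTwistedL m f ψ L ∧ (sgn N m e ψ = -1 → L (1 / 2) = 0) := by
  have hN0 : 0 < N := Nat.pos_of_ne_zero hN.ne_zero
  set g := Nat.gcd N D with hg
  have hg0 : 0 < g := Nat.gcd_pos_of_pos_left _ hN0
  have hgN : g ∣ N := Nat.gcd_dvd_left _ _
  have hQN : N / g ∣ N := Nat.div_dvd_of_dvd hgN
  have hQ0 : 0 < N / g := Nat.div_pos (Nat.le_of_dvd hN0 hgN) hg0
  have hco : Nat.Coprime (N / g) D := Nat.coprime_div_gcd_of_squarefree hN (NeZero.ne D)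
  obtain ⟨hpm, hrel⟩ := he (N / g) hQN
  have hgood := good_of_cusp (m := m) f hw
  have hR := rel_of_AL (m := m) (D := D) hN0 (f := f) g hgN (Nat.gcd_dvd_right _ _) hrel
  have hne : e (N / g) * (-1) ^ m * ψ (-((N / g : ℕ) : ZMod D)) ≠ 0 := by
    refine mul_ne_zero (mul_ne_zero ?_ (pow_ne_zero _ (by norm_num))) ?_
    · rcases hpm with h | h <;> rw [h] <;> norm_num
    · have hu : IsUnit (-((N / g : ℕ) : ZMod D)) :=
        IsUnit.neg ((ZMod.isUnit_iff_coprime _ _).mpr hco)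
      exact (hu.map ψ).ne_zero
  obtain ⟨L, h1, h2, h3⟩ := exists_L ψ hgood hψ.1 hψ.2 hQ0 hm hco hR hne
  exact ⟨L, ⟨h1, h2⟩, h3⟩

lemma sgn_pm {f : ℍ → ℂ} {e : ℕ → ℂ} (he : Signs N m f e) (hN : Squarefree N) {D : ℕ} [NeZero D]
    (ψ : DirichletCharacter ℂ D) (hψ : ψ ^ 2 = 1) : sgn N m e ψ = 1 ∨ sgn N m e ψ = -1 := by
  have hN0 : 0 < N := Nat.pos_of_ne_zero hN.ne_zero
  have hgN : Nat.gcd N D ∣ N := Nat.gcd_dvd_left _ _
  have hco : Nat.Coprime (N / Nat.gcd N D) D := Nat.coprime_div_gcd_of_squarefree hN (NeZero.ne D)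
  rw [← sq_eq_one_iff]
  unfold sgn
  have h1 : e (N / Nat.gcd N D) ^ 2 = 1 := by
    rcases (he _ (Nat.div_dvd_of_dvd hgN)).1 with h | h <;> rw [h] <;> norm_num
  have hu : IsUnit (-((N / Nat.gcd N D : ℕ) : ZMod D)) :=
    IsUnit.neg ((ZMod.isUnit_iff_coprime _ _).mpr hco)
  obtain ⟨u, hu⟩ := hu
  have h2 : ψ (-((N / Nat.gcd N D : ℕ) : ZMod D)) ^ 2 = 1 := by
    rw [← hu]
    have := congrArg (fun χ : DirichletCharacter ℂ D => χ (u : ZMod D)) hψ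
    simpa only [MulChar.pow_apply_coe, MulChar.one_apply_coe] using this
  rw [mul_pow, mul_pow, h1, h2, ← pow_mul, mul_comm m 2, pow_mul]
  norm_num

theorem product_zero (hN : Squarefree N) (hm : 0 < m) {Γ : Subgroup (GL (Fin 2) ℝ)} [Γ.IsArithmetic]
    {F : Type*} [FunLike F ℍ ℂ] [CuspFormClass F Γ (2 * (m : ℤ))] (f : F)
    (hw : Γ.strictWidthInfty = 1) (hAL : IsAtkinLehnerEigen N m f) {d : ℕ} [NeZero d]
    (χ : DirichletCharacter ℂ d) (hχ2 : χ ^ 2 = 1) (hodd : χ.Odd)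
    (hp : ∀ p : ℕ, p.Prime → p ∣ N → χ (p : ZMod d) = 1) {D : ℕ} [NeZero D]
    (ψ : DirichletCharacter ℂ D) (hψ : IsRealPrimitive ψ) {L L' : ℂ → ℂ}
    (hL : IsTwistedL m f ψ L) (hL' : IsTwistedL m f (primitive_mul χ ψ) L') :
    L (1 / 2) * L' (1 / 2) = 0 := by
  have hN0 : 0 < N := Nat.pos_of_ne_zero hN.ne_zero
  obtain ⟨e, he⟩ := exists_signs hAL
  have hco := coprime_of_chi χ hp
  have hψ' : IsRealPrimitive (primitive_mul χ ψ) :=
    ⟨primitive_mul_isPrimitive _ _, primitive_mul_sq χ ψ hχ2 hψ.2⟩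
  obtain ⟨L₁, hL₁, hz₁⟩ := exists_twisted hN hm f hw he ψ hψ
  obtain ⟨L₂, hL₂, hz₂⟩ := exists_twisted hN hm f hw he (primitive_mul χ ψ) hψ'
  rw [hL.unique hL₁, hL'.unique hL₂]
  -- signs are opposite
  set Q := N / Nat.gcd N D with hQ
  have hQN : Q ∣ N := Nat.div_dvd_of_dvd (Nat.gcd_dvd_left _ _)
  have hQ0 : Q ≠ 0 := (Nat.pos_of_dvd_of_pos hQN hN0).ne'
  have hQD : Nat.Coprime Q D := Nat.coprime_div_gcd_of_squarefree hN (NeZero.ne D)
  have hQd : Nat.Coprime Q d := Nat.Coprime.coprime_dvd_left hQN hco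
  have hopp : sgn N m e (primitive_mul χ ψ) = - sgn N m e ψ := by
    unfold sgn
    rw [gcd_eq χ ψ hχ2 hψ.1 hco, ← hQ]
    have h1 : (primitive_mul χ ψ) (-((Q : ℕ) : ZMod (mul χ ψ).conductor)) =
        χ (-((Q : ℕ) : ZMod d)) * ψ (-((Q : ℕ) : ZMod D)) := by
      have := primitive_mul_apply χ ψ (a := -(Q : ℤ))
        ((Nat.isCoprime_iff_coprime.mpr hQd).neg_left) ((Nat.isCoprime_iff_coprime.mpr hQD).neg_left)
      simpa using this
    rw [h1]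
    have h2 : χ (-((Q : ℕ) : ZMod d)) = -1 := by
      rw [hodd.eval_neg, chi_one χ hQ0 (fun p hpp hpQ => hp p hpp (hpQ.trans hQN))]
    rw [h2]; ring
  rcases sgn_pm he hN ψ hψ.2 with h | h
  · rw [hz₂ (by rw [hopp, h]), mul_zero]
  · rw [hz₁ h, zero_mul]

end main

end L5helper79.TW
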