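import Pool.Agent.L5helper79.TW.Fin

open DirichletCharacter

namespace L5helper79.TW

/-- the real character of prime modulus -/
noncomputable def qchar (q : ℕ) [Fact q.Prime] : DirichletCharacter ℂ q :=
  (quadraticChar (ZMod q)).ringHomComp (Int.castRingHom ℂ)

lemma qchar_apply (q : ℕ) [Fact q.Prime] (a : ℤ) :
    qchar q (a : ZMod q) = ((legendreSym q a : ℤ) : ℂ) := rfl

lemma qchar_sq (q : ℕ) [Fact q.Prime] : qchar q ^ 2 = 1 :=
  ((quadraticChar_isQuadratic (ZMod q)).comp _).sq_eq_one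

lemma qchar_odd (q : ℕ) [Fact q.Prime] (h : q % 4 = 3) : (qchar q).Odd := by
  have hq2 : q ≠ 2 := by rintro rfl; norm_num at h
  have h1 : qchar q ((-1 : ℤ) : ZMod q) = ((legendreSym q (-1) : ℤ) : ℂ) := qchar_apply q (-1)
  rw [legendreSym.at_neg_one hq2, ZMod.χ₄_nat_three_mod_four h] at h1
  unfold DirichletCharacter.Odd
  simpa using h1

lemma odd_primitive {q : ℕ} (hq : q.Prime) (χ : DirichletCharacter ℂ q) (h : χ.Odd) :
    χ.IsPrimitive := by
  have : NeZero q := ⟨hq.ne_zero⟩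
  rcases (Nat.dvd_prime hq).mp χ.conductor_dvd_level with h1 | h1
  · exfalso
    rw [← eq_one_iff_conductor_eq_one] at h1
    unfold DirichletCharacter.Odd at h
    rw [h1] at h
    have hu : IsUnit (-1 : ZMod q) := isUnit_one.neg
    rw [MulChar.one_apply hu] at h
    norm_num at h
  · exact h1

lemma qchar_split {q p N : ℕ} [Fact q.Prime] (hq8 : q % 8 = 7) (hqN : N ∣ q + 1) (hp : p.Prime)
    (hpN : p ∣ N) : qchar q (p : ZMod q) = 1 := by
  have : Fact p.Prime := ⟨hp⟩
  have hq2 : q ≠ 2 := by rintro rfl; norm_num at hq8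
  have key : legendreSym q p = 1 := by
    rcases eq_or_ne p 2 with rfl | hp2
    · have := legendreSym.at_two (p := q) hq2
      rw [ZMod.χ₈_nat_mod_eight, hq8] at this
      exact this
    · rw [legendreSym.quadratic_reciprocity' hp2 hq2]
      have h1 : legendreSym p q = legendreSym p (-1) := by
        rw [legendreSym.mod p (q : ℤ), legendreSym.mod p (-1)]
        congr 1
        have : (p : ℤ) ∣ (q : ℤ) - (-1) := by
          have : (p : ℤ) ∣ ((q + 1 : ℕ) : ℤ) := by exact_mod_cast hpN.trans hqN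
          simpa using this
        exact ((Int.modEq_iff_dvd).mpr this).symm
      rw [h1, legendreSym.at_neg_one hp2, ZMod.χ₄_eq_neg_one_pow (hp.eq_two_or_odd.resolve_left hp2)]
      have hodd : (q / 2) % 2 = 1 := by omega
      have : ((-1 : ℤ)) ^ (p / 2 * (q / 2)) = (-1) ^ (p / 2) := by
        rw [mul_comm, pow_mul, (Nat.odd_iff.mpr hodd).neg_one_pow]
      rw [this, ← pow_add, ← two_mul, pow_mul]
      norm_num
  have h2 := qchar_apply q (p : ℤ)
  rw [key] at h2
  simpa using h2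

theorem infinite_split (N : ℕ) (hN : N ≠ 0) :
    {q : ℕ | q.Prime ∧ ∃ χ : DirichletCharacter ℂ q, IsRealPrimitive χ ∧ χ.Odd ∧
      ∀ p : ℕ, p.Prime → p ∣ N → χ (p : ZMod q) = 1}.Infinite := by
  have h8 : 8 * N ≠ 0 := by positivity
  have hc : Nat.Coprime (8 * N - 1) (8 * N) := by
    have : 8 * N = (8 * N - 1) + 1 := by omega
    conv_rhs => rw [this]
    exact (Nat.coprime_self_add_right).mpr (Nat.coprime_one_right _)
  refine (Nat.infinite_setOfPred_prime_and_modEq h8 hc).mono ?_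
  rintro q ⟨hq, hmod⟩
  refine ⟨hq, ?_⟩
  have : Fact q.Prime := ⟨hq⟩
  have hdvd : 8 * N ∣ q + 1 := by
    have h1 : q + 1 ≡ (8 * N - 1) + 1 [MOD 8 * N] := hmod.add_right 1
    have h2 : (8 * N - 1) + 1 = 8 * N := by omega
    rw [h2] at h1
    exact (Nat.modEq_zero_iff_dvd).mp (h1.trans (by simp [Nat.ModEq]))
  have hq8 : q % 8 = 7 := by
    have : 8 ∣ q + 1 := (Dvd.intro _ rfl).trans hdvd
    omega
  have hodd : (qchar q).Odd := qchar_odd q (by omega)
  exact ⟨qchar q, ⟨odd_primitive hq _ hodd, qchar_sq q⟩, hodd, fun p hp hpN =>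
    qchar_split hq8 ((Dvd.intro_left _ rfl).trans hdvd) hp hpN⟩

end L5helper79.TW
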