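import Pool.Agent.L5helper79.TW.Core

open Complex MeasureTheory Filter Topology Asymptotics Set ZMod
open scoped Real

namespace L5helper79.TW

variable {D : ℕ} [NeZero D] {m : ℕ} {c : ℕ → ℂ} {g : ℂ → ℂ} {N₀ : ℕ} {e : ℂ}
  (ψ : DirichletCharacter ℂ D)

/-- the functional-equation pair -/
noncomputable def pair (hg : Good m c g) (h2 : ψ ^ 2 = 1) (hN : 0 < N₀) (hm : 0 < m)
    (hco : Nat.Coprime N₀ D) (hrel : Rel D m N₀ e g) (he : e * (-1) ^ m * ψ (-(N₀ : ZMod D)) ≠ 0) :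
    WeakFEPair ℂ where
  f := Th ψ (√N₀) g
  g := Th ψ (√N₀) g
  k := 2 * m
  ε := e * (-1) ^ m * ψ (-(N₀ : ZMod D))
  f₀ := 0
  g₀ := 0
  hf_int := (Th_cont ψ hg (Real.sqrt_pos.mpr (by exact_mod_cast hN))).locallyIntegrableOn
    measurableSet_Ioi
  hg_int := (Th_cont ψ hg (Real.sqrt_pos.mpr (by exact_mod_cast hN))).locallyIntegrableOn
    measurableSet_Ioi
  hk := by positivity
  hε := he
  h_feq := by
    intro x hx
    have hx : 0 < x := hx
    rw [Th_feq ψ h2 hN hco hrel x hx, smul_eq_mul]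
    congr 2
    have : x ^ (2 * (m : ℝ)) = x ^ (2 * m) := by
      rw [← Real.rpow_natCast]; push_cast; rfl
    rw [this]; push_cast; rfl
  hf_top r := by
    simpa using Th_decay ψ hg (R := √N₀) (Real.sqrt_pos.mpr (by exact_mod_cast hN)) r
  hg_top r := by
    simpa using Th_decay ψ hg (R := √N₀) (Real.sqrt_pos.mpr (by exact_mod_cast hN)) r

omit [NeZero D] in
lemma char_norm_le (n : ZMod D) : ‖ψ n‖ ≤ 1 := DirichletCharacter.norm_le_one ψ n

lemma exists_L (hg : Good m c g) (hψ : ψ.IsPrimitive) (h2 : ψ ^ 2 = 1) (hN : 0 < N₀) (hm : 0 < m)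
    (hco : Nat.Coprime N₀ D) (hrel : Rel D m N₀ e g)
    (he : e * (-1) ^ m * ψ (-(N₀ : ZMod D)) ≠ 0) :
    ∃ L : ℂ → ℂ, Differentiable ℂ L ∧
      (∀ s : ℂ, 3 / 2 < s.re → HasSum (fun n : ℕ =>
        ψ n * (c n / (n : ℂ) ^ ((2 * m - 1 : ℂ) / 2)) / (n : ℂ) ^ s) (L s)) ∧
      (e * (-1) ^ m * ψ (-(N₀ : ZMod D)) = -1 → L (1 / 2) = 0) := by
  set P := pair ψ hg h2 hN hm hco hrel he with hP
  have hs : IsStrongFEPair P := ⟨rfl, rfl⟩
  set G := gaussSum ψ (stdAddChar (N := D)) with hG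
  have hG0 : G ≠ 0 := gauss_ne_zero ψ hψ
  have hD : (0 : ℝ) < D := by exact_mod_cast Nat.pos_of_ne_zero (NeZero.ne D)
  have hR : (0 : ℝ) < √N₀ := Real.sqrt_pos.mpr (by exact_mod_cast hN)
  set q : ℝ := 2 / (D * √N₀) with hq
  have hq0 : 0 < q := by positivity
  have hqc : (q : ℂ) ≠ 0 := by exact_mod_cast hq0.ne'
  have hpic : (π : ℂ) ≠ 0 := by exact_mod_cast Real.pi_ne_zero
  refine ⟨fun s => P.Λ (s + (2 * m - 1 : ℂ) / 2) * ((π : ℂ) ^ (s + (2 * m - 1 : ℂ) / 2) *
    (Gamma (s + (2 * m - 1 : ℂ) / 2))⁻¹ * (q : ℂ) ^ (s + (2 * m - 1 : ℂ) / 2) / G), ?_, ?_, ?_⟩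
  · have h1 : Differentiable ℂ fun s : ℂ => P.Λ (s + (2 * m - 1 : ℂ) / 2) :=
      hs.differentiable_Λ.comp (differentiable_id.add_const _)
    have h2 : Differentiable ℂ fun s : ℂ => (Gamma (s + (2 * m - 1 : ℂ) / 2))⁻¹ :=
      Complex.differentiable_one_div_Gamma.comp (differentiable_id.add_const _)
    have h3 : Differentiable ℂ fun s : ℂ => (π : ℂ) ^ (s + (2 * m - 1 : ℂ) / 2) :=
      (differentiable_id.add_const _).const_cpow (Or.inl hpic)
    have h4 : Differentiable ℂ fun s : ℂ => (q : ℂ) ^ (s + (2 * m - 1 : ℂ) / 2) :=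
      (differentiable_id.add_const _).const_cpow (Or.inl hqc)
    exact h1.mul (((h3.mul h2).mul h4).div_const _)
  · intro s hsre
    set s' : ℂ := s + (2 * m - 1 : ℂ) / 2 with hs'
    have hre : (m : ℝ) + 1 < s'.re := by
      have : s'.re = s.re + (2 * m - 1) / 2 := by
        rw [hs', Complex.add_re]
        congr 1
        have : (2 * m - 1 : ℂ) / 2 = (((2 * m - 1) / 2 : ℝ) : ℂ) := by push_cast; ring
        rw [this, Complex.ofReal_re]
      rw [this]; linarith
    have hpos : 0 < s'.re := by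
      have : (0 : ℝ) ≤ m := by positivity
      linarith
    have hΛ : P.Λ s' = mellin (Th ψ (√N₀) g) s' := by rw [hs.Λ_eq]; rfl
    have hmel : HasSum (fun n : ℕ => (π : ℂ) ^ (-s') * Gamma s' * (G * (ψ n * c n)) /
        (((2 * n / (D * √N₀) : ℝ)) : ℂ) ^ s') (P.Λ s') := by
      rw [hΛ]
      refine hasSum_mellin_pi_mul₀ (a := fun n : ℕ => G * (ψ n * c n))
        (p := fun n : ℕ => 2 * n / (D * √N₀)) (fun n => by positivity) hpos ?_ ?_
      · intro t ht
        have := Th_series ψ hg hψ h2 hR t ht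
        have e1 : (fun n : ℕ => if (2 * (n : ℝ) / (D * √N₀)) = 0 then (0 : ℂ) else
            G * (ψ n * c n) * (Real.exp (-π * (2 * (n : ℝ) / (D * √N₀)) * t) : ℝ)) =
            fun n : ℕ => (gaussSum ψ (stdAddChar (N := D)) * (ψ n * c n)) *
              (Real.exp (-π * (2 * n / (D * √N₀)) * t) : ℝ) := by
          funext n
          rcases Nat.eq_zero_or_pos n with rfl | hn
          · simp [hg.c0]
          · have hn' : (0 : ℝ) < n := by exact_mod_cast hn
            rw [if_neg (by positivity)]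
        exact e1 ▸ this
      · have hq1 : ∀ n : ℕ, (2 * (n : ℝ) / (D * √N₀)) ^ s'.re = q ^ s'.re * (n : ℝ) ^ s'.re := by
          intro n
          have : (2 * n / (D * √N₀) : ℝ) = q * (n : ℝ) := by rw [hq]; ring
          rw [this, Real.mul_rpow hq0.le (by positivity)]
        simp_rw [hq1]
        refine summable_of_isBigO_nat (Real.summable_nat_rpow.mpr
          (show (m : ℝ) - s'.re < -1 by linarith)) ?_
        have h1 : (fun n : ℕ => ‖G * (ψ n * c n)‖) =O[atTop] fun n : ℕ => (n : ℝ) ^ (m : ℝ) := by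
          have h2 : (fun n : ℕ => ‖G * (ψ n * c n)‖) =O[atTop] c := by
            refine IsBigO.of_bound ‖G‖ (Eventually.of_forall fun n => ?_)
            rw [norm_norm, norm_mul, norm_mul]
            refine mul_le_mul_of_nonneg_left ?_ (norm_nonneg _)
            calc ‖ψ n‖ * ‖c n‖ ≤ 1 * ‖c n‖ :=
                  mul_le_mul_of_nonneg_right (char_norm_le ψ _) (norm_nonneg _)
              _ = ‖c n‖ := one_mul _
          exact h2.trans hg.bd
        have h3 : (fun n : ℕ => (q ^ s'.re * (n : ℝ) ^ s'.re)⁻¹) =O[atTop]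
            fun n : ℕ => (n : ℝ) ^ (-s'.re) := by
          refine IsBigO.of_bound ((q ^ s'.re)⁻¹) (Eventually.of_forall fun n => ?_)
          rw [mul_inv, norm_mul, Real.rpow_neg (Nat.cast_nonneg n),
            Real.norm_of_nonneg (show 0 ≤ (q ^ s'.re)⁻¹ by positivity)]
        have h4 := h1.mul h3
        refine (h4.congr (fun n => ?_) (fun n => rfl)).trans ?_
        · rw [div_eq_mul_inv]
        · refine IsBigO.of_bound 1 ?_
          filter_upwards [eventually_gt_atTop 0] with n hn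
          have hn' : (0 : ℝ) < n := by exact_mod_cast hn
          rw [one_mul, ← Real.rpow_add hn', sub_eq_add_neg]
    have hΓ : Gamma s' ≠ 0 := Complex.Gamma_ne_zero_of_re_pos hpos
    have e2 : (fun n : ℕ => ψ n * (c n / (n : ℂ) ^ ((2 * m - 1 : ℂ) / 2)) / (n : ℂ) ^ s) =
        fun n : ℕ => (π : ℂ) ^ (-s') * Gamma s' * (G * (ψ n * c n)) /
        (((2 * n / (D * √N₀) : ℝ)) : ℂ) ^ s' * ((π : ℂ) ^ s' * (Gamma s')⁻¹ * (q : ℂ) ^ s' / G) := by
     funext n
     rcases Nat.eq_zero_or_pos n with rfl | hn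
     · simp [hg.c0]
     · have hnc : (n : ℂ) ≠ 0 := by exact_mod_cast hn.ne'
       have h1 : (((2 * n / (D * √N₀) : ℝ)) : ℂ) ^ s' = (q : ℂ) ^ s' * (n : ℂ) ^ s' := by
         have : (2 * n / (D * √N₀) : ℝ) = q * (n : ℝ) := by rw [hq]; ring
         rw [this, Complex.ofReal_mul, Complex.mul_cpow_ofReal_nonneg hq0.le (by positivity)]
         simp
       have h3 : (n : ℂ) ^ s' = (n : ℂ) ^ s * (n : ℂ) ^ ((2 * m - 1 : ℂ) / 2) := by
         rw [hs', Complex.cpow_add _ _ hnc]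
       have h4 : (π : ℂ) ^ (-s') * (π : ℂ) ^ s' = 1 := by
         rw [← Complex.cpow_add _ _ hpic]; simp
       have h5 : (q : ℂ) ^ s' ≠ 0 := by
         rw [Complex.cpow_def_of_ne_zero hqc]; exact Complex.exp_ne_zero _
       have h6 : (n : ℂ) ^ s ≠ 0 := by
         rw [Complex.cpow_def_of_ne_zero hnc]; exact Complex.exp_ne_zero _
       have h7 : (n : ℂ) ^ ((2 * m - 1 : ℂ) / 2) ≠ 0 := by
         rw [Complex.cpow_def_of_ne_zero hnc]; exact Complex.exp_ne_zero _
       rw [h1, h3]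
       calc _ = (ψ n * c n) / ((n : ℂ) ^ s * (n : ℂ) ^ ((2 * m - 1 : ℂ) / 2)) := by
             field_simp
         _ = ((π : ℂ) ^ (-s') * (π : ℂ) ^ s') * ((ψ n * c n) / ((n : ℂ) ^ s * (n : ℂ) ^ ((2 * m - 1 : ℂ) / 2))) := by
             rw [h4, one_mul]
         _ = _ := by field_simp
    rw [e2]
    exact hmel.mul_right _
  · intro hneg
    have hcen : (1 / 2 : ℂ) + (2 * m - 1 : ℂ) / 2 = m := by ring
    have h1 : P.Λ (m : ℂ) = 0 := by
      have h := P.functional_equation (m : ℂ)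
      have h3 : ((P.k : ℝ) : ℂ) - (m : ℂ) = m := by
        have : P.k = 2 * (m : ℝ) := rfl
        rw [this]; push_cast; ring
      have h4 : P.symm.Λ = P.Λ := by
        rw [hs.Λ_eq, hs.symm.Λ_eq]; rfl
      have h5 : P.ε = -1 := hneg
      rw [h3, h4, h5, smul_eq_mul] at h
      have : P.Λ (m : ℂ) + P.Λ (m : ℂ) = 0 := by
        nth_rewrite 1 [h]; ring
      have h6 : (2 : ℂ) * P.Λ (m : ℂ) = 0 := by rw [two_mul]; exact this
      rcases mul_eq_zero.mp h6 with h7 | h7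
      · norm_num at h7
      · exact h7
    simp only [hcen, h1, zero_mul]

end L5helper79.TW
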