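import Pool.Agent.L5helper79.TW.Defs
import Pool.Agent.L5helper79.TW.LFun

open Complex MeasureTheory Filter Topology Asymptotics Set ZMod
open UpperHalfPlane hiding I
open scoped Real MatrixGroups
open CongruenceSubgroup

namespace L5helper79.TW

lemma good_of_cusp {Γ : Subgroup (GL (Fin 2) ℝ)} [Γ.IsArithmetic] {m : ℕ}
    {F : Type*} [FunLike F ℍ ℂ] [CuspFormClass F Γ (2 * (m : ℤ))] (f : F)
    (hw : Γ.strictWidthInfty = 1) :
    Good m (fun n => (qExpansion 1 f).coeff n) (fun z => f (ofComplex z)) := by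
  have hmem : (1 : ℝ) ∈ Γ.strictPeriods := by
    rw [← hw]; exact Γ.strictWidthInfty_mem_strictPeriods
  refine ⟨?_, ?_, ?_, ?_, ?_⟩
  · intro z hz
    have hF : Fact (IsCusp OnePoint.infty Γ) := ⟨Γ.isCusp_of_mem_strictPeriods one_pos hmem⟩
    have h := ModularForm.hasSum_qExpansion (Γ := Γ) (k := 2 * (m : ℤ)) f one_pos hmem (ofComplex z)
    have e : (fun n : ℕ => (qExpansion 1 f).coeff n * cexp (2 * π * I * n * z)) =
        fun n : ℕ => (qExpansion 1 f).coeff n * Function.Periodic.qParam 1 (ofComplex z : ℂ) ^ n := by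
      funext n
      congr 1
      rw [Function.Periodic.qParam, ← Complex.exp_nat_mul, ofComplex_apply_of_im_pos hz]
      congr 1
      show _ = n * (2 * π * I * z / (1 : ℝ))
      push_cast
      ring
    rw [e]
    exact h
  · exact CuspFormClass.qExpansion_coeff_zero (Γ := Γ) (k := 2 * (m : ℤ)) f one_pos hmem
  · have h := CuspFormClass.qExpansion_isBigO (Γ := Γ) (k := 2 * (m : ℤ)) f
    rw [hw] at h
    have e : (((2 * (m : ℤ) : ℤ) : ℝ) / 2) = (m : ℝ) := by push_cast; ring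
    rw [e] at h
    exact h
  · have h := (UpperHalfPlane.mdifferentiable_iff).mp (CuspFormClass.holo (Γ := Γ) (k := 2 * (m : ℤ)) f)
    exact h.continuousOn
  · have h := CuspFormClass.exp_decay_atImInfty (Γ := Γ) (k := 2 * (m : ℤ)) f one_pos hmem
    obtain ⟨C, hC⟩ := h.bound
    obtain ⟨A, hA⟩ := (atImInfty_mem _).mp hC
    refine ⟨C, 2 * π, A, by positivity, fun z hz hz0 => ?_⟩
    have h1 := hA (ofComplex z) (by rw [ofComplex_apply_of_im_pos hz0]; exact hz)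
    simp only [Set.mem_ofPred_eq] at h1
    refine h1.trans ?_
    rw [Real.norm_eq_abs, abs_of_pos (Real.exp_pos _), ofComplex_apply_of_im_pos hz0]
    apply le_of_eq
    congr 2
    show -2 * π * z.im / 1 = _
    ring

/-- the functional relation from the Atkin–Lehner property -/
lemma rel_of_AL {N m D : ℕ} [NeZero D] (hN : 0 < N) {f : ℍ → ℂ} (g : ℕ) (hgN : g ∣ N) (hgD : g ∣ D)
    {e : ℂ}
    (he : ∀ x y z w : ℤ, ((N / g : ℕ) : ℤ) * x * w - (N / (N / g) : ℕ) * y * z = 1 → ∀ τ τ' : ℍ,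
      (τ' : ℂ) * (N * z * τ + (N / g : ℕ) * w) = (N / g : ℕ) * x * τ + y →
      ((N / g : ℕ) : ℂ) ^ m * f τ' = e * ((N : ℂ) * z * τ + (N / g : ℕ) * w) ^ (2 * m) * f τ) :
    Rel D m (N / g) e (fun z => f (ofComplex z)) := by
  intro u v huv t ht
  obtain ⟨b, hb⟩ := huv
  obtain ⟨D', hD'⟩ := hgD
  have hg0 : 0 < g := Nat.pos_of_dvd_of_pos hgN hN
  set Q := N / g with hQ
  have hNQ : N = g * Q := (Nat.mul_div_cancel' hgN).symm
  have hQ0 : 0 < Q := by
    rcases Nat.eq_zero_or_pos Q with h | h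
    · rw [h, mul_zero] at hNQ; omega
    · exact h
  have hNQ' : N / Q = g := by rw [hNQ]; exact Nat.mul_div_cancel _ hQ0
  have hD : (0 : ℝ) < D := by exact_mod_cast Nat.pos_of_ne_zero (NeZero.ne D)
  have hQr : (0 : ℝ) < √Q := Real.sqrt_pos.mpr (by exact_mod_cast hQ0)
  have hDc : (D : ℂ) ≠ 0 := by exact_mod_cast NeZero.ne D
  have hQc : ((√Q : ℝ) : ℂ) ≠ 0 := by exact_mod_cast hQr.ne'
  have htc : (t : ℂ) ≠ 0 := by exact_mod_cast ht.ne'
  have hsq : ((√Q : ℝ) : ℂ) * ((√Q : ℝ) : ℂ) = (Q : ℂ) := by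
    rw [← Complex.ofReal_mul, Real.mul_self_sqrt (by positivity)]; simp
  have im1 : 0 < ((v : ℂ) / D + I * (t / (D * √Q) : ℝ)).im := by
    rw [arg_im]
    · positivity
    · have : (v : ℂ) / D = ((v / D : ℝ) : ℂ) := by push_cast; rfl
      rw [this, Complex.ofReal_im]
  have im2 : 0 < ((u : ℂ) / D + I * (1 / t / (D * √Q) : ℝ)).im := by
    rw [arg_im]
    · positivity
    · have : (u : ℂ) / D = ((u / D : ℝ) : ℂ) := by push_cast; rfl
      rw [this, Complex.ofReal_im]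
  set τ : ℍ := ⟨_, im1⟩ with hτ
  set τ' : ℍ := ⟨_, im2⟩ with hτ'
  have hdet : ((Q : ℕ) : ℤ) * u * (-v) - (N / Q : ℕ) * (-b) * D' = 1 := by
    rw [hNQ']
    have hDz : (D : ℤ) = g * D' := by exact_mod_cast hD'
    rw [hDz] at hb
    linear_combination (-1 : ℤ) * hb
  have hz : ((N : ℂ) * ((D' : ℤ) : ℂ) * (τ : ℂ) + Q * ((-v : ℤ) : ℂ)) = (I * t) * ((√Q : ℝ) : ℂ) := by
    have hτc : (τ : ℂ) = (v : ℂ) / D + I * (t / (D * √Q) : ℝ) := rfl
    rw [hτc]
    have hNc : (N : ℂ) * ((D' : ℤ) : ℂ) = Q * D := by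
      rw [hNQ, hD']; push_cast; ring
    rw [hNc]
    push_cast
    rw [← hsq]
    field_simp
    ring
  have hrel2 : (τ' : ℂ) * (N * ((D' : ℤ) : ℂ) * τ + Q * ((-v : ℤ) : ℂ)) = Q * u * τ + ((-b : ℤ) : ℂ) := by
    rw [hz]
    have hτc : (τ : ℂ) = (v : ℂ) / D + I * (t / (D * √Q) : ℝ) := rfl
    have hτc' : (τ' : ℂ) = (u : ℂ) / D + I * (1 / t / (D * √Q) : ℝ) := rfl
    rw [hτc, hτc']
    have hbc : (b : ℂ) = ((u : ℂ) * v * Q + 1) / D := by
      rw [eq_div_iff hDc]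
      have : ((u * v * (Q : ℕ) + 1 : ℤ) : ℂ) = ((D * b : ℤ) : ℂ) := by rw [hb]
      push_cast at this
      rw [this]; ring
    push_cast
    rw [hbc, ← hsq]
    field_simp
    ring_nf
    rw [I_sq]
    ring
  have h := he u (-b) D' (-v) hdet τ τ' hrel2
  rw [hz] at h
  have e1 : ofComplex ((u : ℂ) / D + I * (1 / t / (D * √Q) : ℝ)) = τ' := by
    rw [hτ', ofComplex_apply_of_im_pos im2]
  have e2 : ofComplex ((v : ℂ) / D + I * (t / (D * √Q) : ℝ)) = τ := by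
    rw [hτ, ofComplex_apply_of_im_pos im1]
  show f (ofComplex _) = _ * f (ofComplex _)
  rw [e1, e2]
  have hpow : (I * (t : ℂ) * ((√Q : ℝ) : ℂ)) ^ (2 * m) = (I * t) ^ (2 * m) * (Q : ℂ) ^ m := by
    rw [mul_pow, ← hsq, pow_mul ((√Q : ℝ) : ℂ), sq]
  rw [hpow] at h
  have hQm : (Q : ℂ) ^ m ≠ 0 := pow_ne_zero _ (by exact_mod_cast hQ0.ne')
  apply mul_left_cancel₀ hQm
  rw [h]; ring

end L5helper79.TW
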